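import Pool.Agent.Helper49.TP.StM

set_option autoImplicit false

namespace Pool.Agent.Helper19.TP

open Finset Pool.Agent.Helper49.TP Pool.Agent.Helper93.IA Pool.Agent.Helper38.IA

private theorem m1_eq {β γ : Type} [Fintype γ] [DecidableEq β] [DecidableEq γ]
    (B : Finset (β × γ)) (b : β) :
    (m1 B univ b : ℝ) = ∑ c, (if (b, c) ∉ B then (1 : ℝ) else 0) := by
  unfold m1
  rw [Finset.card_filter]
  push_cast
  rfl

private theorem m2_eq {γ α : Type} [Fintype γ] [DecidableEq α] [DecidableEq γ]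
    (C : Finset (γ × α)) (a : α) :
    (m2 C univ a : ℝ) = ∑ c, (if (c, a) ∉ C then (1 : ℝ) else 0) := by
  unfold m2
  rw [Finset.card_filter]
  push_cast
  rfl

private theorem cnt {α β γ : Type} [Fintype α] [Fintype β] [Fintype γ] [DecidableEq α]
    [DecidableEq β] [DecidableEq γ] (n : ℕ) (A : Finset (α × β)) (B : Finset (β × γ))
    (C : Finset (γ × α)) (hα : Fintype.card α = n) (hβ : Fintype.card β = n)
    (hγ : Fintype.card γ = n) (hM : Mis A B C (n / 4)) :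
    (3 / 8 : ℝ) * n ^ 3 ≤ ∑ a, ∑ b, ∑ c,
      (if (a, b) ∈ A ∧ (b, c) ∈ B ∧ (c, a) ∈ C then (1 : ℝ) else 0) := by
  obtain ⟨⟨hA1, -⟩, ⟨hB1, -⟩, -, hC2⟩ := hM
  have hn : (0 : ℝ) ≤ n := Nat.cast_nonneg n
  have h1 : ∀ a b, (if (a, b) ∈ A then (n / 2 : ℝ) else 0) ≤
      ∑ c, (if (a, b) ∈ A ∧ (b, c) ∈ B ∧ (c, a) ∈ C then (1 : ℝ) else 0) := by
    intro a b
    by_cases hab : (a, b) ∈ A
    · rw [if_pos hab]
      have h2 : ∀ c, (1 : ℝ) - (if (b, c) ∉ B then (1 : ℝ) else 0) -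
          (if (c, a) ∉ C then (1 : ℝ) else 0) ≤
          (if (a, b) ∈ A ∧ (b, c) ∈ B ∧ (c, a) ∈ C then (1 : ℝ) else 0) := by
        intro c
        by_cases h3 : (b, c) ∈ B <;> by_cases h4 : (c, a) ∈ C <;> simp [hab, h3, h4]
      refine le_trans ?_ (Finset.sum_le_sum fun c _ => h2 c)
      rw [Finset.sum_sub_distrib, Finset.sum_sub_distrib, ← m1_eq, ← m2_eq, Finset.sum_const,
        Finset.card_univ, hγ, nsmul_eq_mul, mul_one]
      have := hB1 b
      have := hC2 a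
      linarith
    · rw [if_neg hab]
      exact Finset.sum_nonneg fun c _ => by split_ifs <;> norm_num
  have h2 : ∀ a, (3 / 8 : ℝ) * n ^ 2 ≤ ∑ b, ∑ c,
      (if (a, b) ∈ A ∧ (b, c) ∈ B ∧ (c, a) ∈ C then (1 : ℝ) else 0) := by
    intro a
    refine le_trans ?_ (Finset.sum_le_sum fun b _ => h1 a b)
    have h3 : ∀ b, (if (a, b) ∈ A then (n / 2 : ℝ) else 0) =
        n / 2 * (1 - (if (a, b) ∉ A then (1 : ℝ) else 0)) := by
      intro b
      by_cases h4 : (a, b) ∈ A <;> simp [h4]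
    rw [Finset.sum_congr rfl fun b _ => h3 b, ← Finset.mul_sum, Finset.sum_sub_distrib, ← m1_eq,
      Finset.sum_const, Finset.card_univ, hβ, nsmul_eq_mul, mul_one]
    have := hA1 a
    nlinarith
  refine le_trans ?_ (Finset.sum_le_sum fun a _ => h2 a)
  rw [Finset.sum_const, Finset.card_univ, hα, nsmul_eq_mul]
  apply le_of_eq
  ring

private theorem rot {α β γ : Type} [Fintype α] [Fintype β] [Fintype γ] [DecidableEq α]
    [DecidableEq β] [DecidableEq γ] (A : Finset (α × β)) (B : Finset (β × γ))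
    (C : Finset (γ × α)) (w : α → β → γ → ℝ) (w' : β → γ → α → ℝ)
    (h : ∀ a b c, w' b c a = w a b c) : ST B C A w' = ST A B C w := by
  unfold Pool.Agent.Helper49.TP.ST
  have h1 : ∀ b, ∑ c, ∑ a, (if (b, c) ∈ B ∧ (c, a) ∈ C ∧ (a, b) ∈ A then |w' b c a| else 0) =
      ∑ a, ∑ c, (if (b, c) ∈ B ∧ (c, a) ∈ C ∧ (a, b) ∈ A then |w' b c a| else 0) :=
    fun b => Finset.sum_comm
  rw [Finset.sum_congr rfl fun b _ => h1 b, Finset.sum_comm]
  refine Finset.sum_congr rfl fun a _ => Finset.sum_congr rfl fun b _ =>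
    Finset.sum_congr rfl fun c _ => ?_
  rw [h a b c]
  by_cases h1 : (a, b) ∈ A <;> by_cases h2 : (b, c) ∈ B <;> by_cases h3 : (c, a) ∈ C <;>
    simp [h1, h2, h3]

theorem hP3b : StP3b := by
  intro hP3a α β γ _ _ _ _ _ _ n A B C P Q S hn hα hβ hγ hM
  have hM' := hM
  obtain ⟨MA, MB, MC⟩ := hM
  obtain ⟨P0, hP0⟩ := hP3a α β γ n A B C P Q S hn hα hβ hγ hM'
  obtain ⟨Q0, hQ0⟩ := hP3a β γ α n B C A Q S P hn hβ hγ hα ⟨MB, MC, MA⟩
  obtain ⟨S0, hS0⟩ := hP3a γ α β n C A B S P Q hn hγ hα hβ ⟨MC, MA, MB⟩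
  have r1 : ST B C A (fun b c a => Q b + S c + P a) = ST A B C (fun a b c => P a + Q b + S c) :=
    rot A B C _ _ fun a b c => by ring
  have r2 : ST C A B (fun c a b => S c + P a + Q b) = ST B C A (fun b c a => Q b + S c + P a) :=
    rot B C A _ _ fun b c a => by ring
  rw [r1] at hQ0
  rw [r2, r1] at hS0
  set X := ST A B C (fun a b c => P a + Q b + S c) with hX
  have hX0 : 0 ≤ X := by
    rw [hX]
    unfold Pool.Agent.Helper49.TP.ST
    exact Finset.sum_nonneg fun a _ => Finset.sum_nonneg fun b _ => Finset.sum_nonneg fun c _ => by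
      split_ifs
      · exact abs_nonneg _
      · exact le_refl 0
  have hnR : (0 : ℝ) < n := by exact_mod_cast hn
  have hcnt := cnt n A B C hα hβ hγ hM'
  set κ := P0 + Q0 + S0 with hκ
  -- the main inequality
  have hpt : ∀ a b c, (if (a, b) ∈ A ∧ (b, c) ∈ B ∧ (c, a) ∈ C then (1 : ℝ) else 0) * |κ| ≤
      (if (a, b) ∈ A ∧ (b, c) ∈ B ∧ (c, a) ∈ C then |P a + Q b + S c| else 0) +
        (|P a - P0| + |Q b - Q0| + |S c - S0|) := by
    intro a b c
    have h3 : 0 ≤ |P a - P0| + |Q b - Q0| + |S c - S0| := by positivity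
    split_ifs with h
    · rw [one_mul]
      have h4 : κ = (P a + Q b + S c) - (P a - P0) - (Q b - Q0) - (S c - S0) := by
        rw [hκ]
        ring
      rw [h4]
      have h5 := abs_sub ((P a + Q b + S c) - (P a - P0) - (Q b - Q0)) (S c - S0)
      have h6 := abs_sub ((P a + Q b + S c) - (P a - P0)) (Q b - Q0)
      have h7 := abs_sub (P a + Q b + S c) (P a - P0)
      linarith
    · rw [zero_mul, zero_add]
      exact h3
  have hsum : (3 / 8 : ℝ) * n ^ 3 * |κ| ≤ X + n ^ 2 *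
      (∑ a, |P a - P0| + ∑ b, |Q b - Q0| + ∑ c, |S c - S0|) := by
    have h1 : (3 / 8 : ℝ) * n ^ 3 * |κ| ≤ (∑ a, ∑ b, ∑ c,
        (if (a, b) ∈ A ∧ (b, c) ∈ B ∧ (c, a) ∈ C then (1 : ℝ) else 0)) * |κ| :=
      mul_le_mul_of_nonneg_right hcnt (abs_nonneg κ)
    refine le_trans h1 ?_
    simp only [Finset.sum_mul]
    refine le_trans (Finset.sum_le_sum fun a _ => Finset.sum_le_sum fun b _ =>
      Finset.sum_le_sum fun c _ => hpt a b c) ?_
    simp only [Finset.sum_add_distrib, Finset.sum_const, Finset.card_univ, hα, hβ, hγ,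
      nsmul_eq_mul]
    rw [← Finset.mul_sum, ← Finset.mul_sum, ← Finset.mul_sum]
    rw [hX]
    unfold Pool.Agent.Helper49.TP.ST
    apply le_of_eq
    ring
  have h16 : ∑ a, |P a - P0| + ∑ b, |Q b - Q0| + ∑ c, |S c - S0| ≤ 48 / (n : ℝ) ^ 2 * X := by
    have : 48 / (n : ℝ) ^ 2 * X = 16 / (n : ℝ) ^ 2 * X + 16 / (n : ℝ) ^ 2 * X +
      16 / (n : ℝ) ^ 2 * X := by ring
    rw [this]
    exact add_le_add (add_le_add hP0 hQ0) hS0
  have hk : (n : ℝ) * |κ| ≤ 131 / (n : ℝ) ^ 2 * X := by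
    have h1 : (3 / 8 : ℝ) * n ^ 3 * |κ| ≤ 49 * X := by
      refine le_trans hsum ?_
      have h2 : (n : ℝ) ^ 2 * (∑ a, |P a - P0| + ∑ b, |Q b - Q0| + ∑ c, |S c - S0|) ≤
          n ^ 2 * (48 / (n : ℝ) ^ 2 * X) := mul_le_mul_of_nonneg_left h16 (by positivity)
      have h3 : (n : ℝ) ^ 2 * (48 / (n : ℝ) ^ 2 * X) = 48 * X := by
        field_simp
      linarith
    rw [div_mul_eq_mul_div, le_div_iff₀ (by positivity)]
    have h4 : (n : ℝ) * |κ| * n ^ 2 = n ^ 3 * |κ| := by ring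
    rw [h4]
    nlinarith
  refine ⟨P0, Q0, S0 - κ, by rw [hκ]; ring, ?_⟩
  have h5 : ∑ c, |S c - (S0 - κ)| ≤ ∑ c, |S c - S0| + n * |κ| := by
    have h6 : ∀ c, |S c - (S0 - κ)| ≤ |S c - S0| + |κ| := by
      intro c
      have : S c - (S0 - κ) = (S c - S0) + κ := by ring
      rw [this]
      exact abs_add_le _ _
    refine le_trans (Finset.sum_le_sum fun c _ => h6 c) ?_
    rw [Finset.sum_add_distrib, Finset.sum_const, Finset.card_univ, hγ, nsmul_eq_mul]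
  have h7 : 200 / (n : ℝ) ^ 2 * X = 48 / (n : ℝ) ^ 2 * X + 131 / (n : ℝ) ^ 2 * X +
    21 / (n : ℝ) ^ 2 * X := by ring
  have h8 : 0 ≤ 21 / (n : ℝ) ^ 2 * X := by positivity
  rw [h7]
  linarith

end Pool.Agent.Helper19.TP
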